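import Mathlib
import Pool.Agent.Helper85.Box
import Pool.Agent.Helper85.Spheres

/-!
# The coindex gap between the two box complexes of a graph is unbounded

For every integer `m` there is a finite simple graph `G` with
`coind (B₀(G)) - coind (B(G)) ≥ m`; moreover `coind (B(G)) ≤ 1` for these graphs.

The definitions (spheres, coindex, box complexes and their geometric realisations) are in
`Pool.Agent.Helper85.Box`.
-/

namespace Pool.Agent.Results.MP_732a28_gt.CoindexGap

open Pool.Agent.Helper85 Pool.Agent.Helper85.Box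

/-- The coindex gap `d(G)` is unbounded, already for graphs with `coind (B(G)) ≤ 1`. -/
theorem result : ∀ m : ℤ, ∃ (V : Type) (_ : Fintype V) (G : SimpleGraph V),
    coind (B G).space (B G).inv ≤ 1 ∧
    ((m : ℝ) : EReal) ≤ coind (B0 G).space (B0 G).inv - coind (B G).space (B G).inv := by
  intro m
  obtain ⟨V, i1, G, ⟨f, hf, hodd⟩, hno⟩ := main (m.toNat + 1)
  have h1 : coind (B G).space (B G).inv ≤ 1 := by
    unfold coind
    apply sSup_le
    rintro r (hr | ⟨n, rfl, hn⟩)
    · rw [Set.mem_singleton_iff] at hr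
      rw [hr]
      exact (EReal.coe_le_coe_iff (x := -1) (y := 1)).mpr (by norm_num)
    · have : n < 2 := by
        by_contra hcon
        exact hno n (not_lt.mp hcon) hn
      have h2 : n ≤ 1 := by omega
      exact_mod_cast h2
  refine ⟨V, i1, G, h1, ?_⟩
  have h2 : (((m.toNat + 1 : ℕ)) : EReal) ≤ coind (B0 G).space (B0 G).inv := by
    unfold coind
    apply le_sSup
    exact Or.inr ⟨_, rfl, f, hf, hodd⟩
  have h3 := EReal.sub_le_sub h2 h1
  refine le_trans ?_ h3
  have h4 : (m : ℝ) ≤ ((m.toNat + 1 : ℕ) : ℝ) - 1 := by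
    push_cast
    have : m ≤ (m.toNat : ℤ) := Int.self_le_toNat m
    have h5 : (m : ℝ) ≤ ((m.toNat : ℤ) : ℝ) := by exact_mod_cast this
    rw [Int.cast_natCast] at h5
    linarith
  have h5 : (((m.toNat + 1 : ℕ)) : EReal) - 1 = ((((m.toNat + 1 : ℕ) : ℝ) - 1 : ℝ) : EReal) := by
    rw [EReal.coe_sub]
    rfl
  rw [h5]
  exact_mod_cast h4

end Pool.Agent.Results.MP_732a28_gt.CoindexGap
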